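import Pool.Agent.N963.KL.Stm

set_option autoImplicit false

/-!
# The saddle point average (project KL, task GA3, helper40)
-/

namespace Pool.Agent.N40.KL

open Complex Filter Topology MeasureTheory
open Pool.Agent.H24R2.JP (HH)
open Pool.Agent.N963.KL

namespace GA3

/-- the Gamma function in exponential coordinates -/
theorem int_EE {s : ℂ} (hs : 0 < s.re) : ∫ v : ℝ, EE s v = Gamma s := by
  rw [Gamma_eq_integral hs, GammaIntegral]
  have him : Real.exp '' Set.univ = Set.Ioi (0 : ℝ) := by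
    rw [Set.image_univ, Real.range_exp]
  rw [← him, integral_image_eq_integral_abs_deriv_smul MeasurableSet.univ
    (fun x _ => (Real.hasDerivAt_exp x).hasDerivWithinAt) Real.exp_injective.injOn,
    Measure.restrict_univ]
  refine integral_congr_ae (Eventually.of_forall fun v => ?_)
  simp only [abs_of_pos (Real.exp_pos v), Complex.real_smul]
  have h1 : ((Real.exp v : ℝ) : ℂ) ^ (s - 1) = cexp ((s - 1) * v) := by
    rw [Complex.cpow_def_of_ne_zero (Complex.ofReal_ne_zero.2 (Real.exp_pos v).ne'),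
      ← Complex.ofReal_log (Real.exp_pos v).le, Real.log_exp]
    congr 1
    ring
  rw [h1, EE]
  push_cast
  rw [← Complex.exp_add, ← Complex.exp_add]
  congr 1
  ring

/-- the change of variables -/
theorem cov (G : ℝ → ℂ) (hG : Integrable G) (c : ℝ) :
    Integrable (fun t : ℝ => G (2 * t + c)) ∧ ∫ t : ℝ, G (2 * t + c) = (1 / 2 : ℂ) * ∫ v : ℝ, G v := by
  have h1 : Integrable (fun u : ℝ => G (u + c)) := hG.comp_add_right c
  refine ⟨h1.comp_mul_left' (R := 2) two_ne_zero, ?_⟩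
  rw [Measure.integral_comp_mul_left (fun u => G (u + c)) 2, integral_add_right_eq_self]
  rw [abs_of_pos (by norm_num : (0 : ℝ) < 2⁻¹), Complex.real_smul]
  push_cast
  norm_num

theorem kt_EE (z : ℂ) (t : ℝ) : ((kt 0 t : ℝ) : ℂ) * cexp (I * z * t) =
    cexp (-(1 / 4 + I * z / 2) * Real.log Real.pi) *
      (4 * EE (9 / 4 + I * z / 2) ((2 * t + Real.log Real.pi : ℝ) : ℂ) -
        6 * EE (5 / 4 + I * z / 2) ((2 * t + Real.log Real.pi : ℝ) : ℂ)) := by
  have hpi : (Real.pi : ℂ) = cexp (Real.log Real.pi) := by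
    rw [← Complex.ofReal_exp, Real.exp_log Real.pi_pos]
  have hpe : cexp ((2 * t + Real.log Real.pi : ℝ) : ℂ) = Real.pi * cexp (2 * t) := by
    push_cast
    rw [Complex.exp_add, ← hpi]
    ring
  set l : ℂ := (Real.log Real.pi : ℂ) with hl
  unfold kt EE
  rw [hpe]
  push_cast
  rw [← hl]
  simp only [zero_add, one_pow, mul_one]
  set E : ℂ := cexp (-(Real.pi * cexp (2 * t))) with hE
  have e1 : cexp ((9 / 4 + I * z / 2) * (2 * t + l) - Real.pi * cexp (2 * t)) =
      cexp (2 * l) * cexp (1 / 4 * l + I * z / 2 * l) * cexp (9 * t / 2) * cexp (I * z * t) * E := by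
    rw [hE, ← Complex.exp_add, ← Complex.exp_add, ← Complex.exp_add, ← Complex.exp_add]
    congr 1
    ring
  have e2 : cexp ((5 / 4 + I * z / 2) * (2 * t + l) - Real.pi * cexp (2 * t)) =
      cexp l * cexp (1 / 4 * l + I * z / 2 * l) * cexp (5 * t / 2) * cexp (I * z * t) * E := by
    rw [hE, ← Complex.exp_add, ← Complex.exp_add, ← Complex.exp_add, ← Complex.exp_add]
    congr 1
    ring
  have e3 : cexp (-(1 / 4 + I * z / 2) * l) * cexp (1 / 4 * l + I * z / 2 * l) = 1 := by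
    rw [← Complex.exp_add, Complex.exp_eq_one_iff]
    exact ⟨0, by push_cast; ring⟩
  have e4 : cexp (2 * l) = (Real.pi : ℂ) ^ 2 := by
    rw [hpi, ← Complex.exp_nat_mul]
    norm_num
  rw [e1, e2, e4, ← hpi]
  linear_combination (-(4 * (Real.pi : ℂ) ^ 2 * cexp (9 * t / 2) - 6 * Real.pi * cexp (5 * t / 2)) *
    cexp (I * z * t) * E) * e3

/-- the transform through the integrals `EE` -/
theorem Jx_eq (T : ℂ → ℂ) (z : ℂ)
    (h1 : Integrable (fun v : ℝ => EE (9 / 4 + I * z / 2) v * T ((v - Real.log Real.pi) / 2)))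
    (h2 : Integrable (fun v : ℝ => EE (5 / 4 + I * z / 2) v * T ((v - Real.log Real.pi) / 2))) :
    Integrable (fun t : ℝ => ((kt 0 t : ℝ) : ℂ) * T (t : ℂ) * cexp (I * z * t)) ∧
    Jx T z = cexp (-(1 / 4 + I * z / 2) * Real.log Real.pi) *
      (2 * (∫ v : ℝ, EE (9 / 4 + I * z / 2) v * T ((v - Real.log Real.pi) / 2)) -
        3 * ∫ v : ℝ, EE (5 / 4 + I * z / 2) v * T ((v - Real.log Real.pi) / 2)) := by
  set P : ℂ := cexp (-(1 / 4 + I * z / 2) * Real.log Real.pi) with hP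
  obtain ⟨i1, q1⟩ := cov _ h1 (Real.log Real.pi)
  obtain ⟨i2, q2⟩ := cov _ h2 (Real.log Real.pi)
  have hT : ∀ t : ℝ, T ((((2 * t + Real.log Real.pi : ℝ) : ℂ) - Real.log Real.pi) / 2) = T t := by
    intro t
    congr 1
    push_cast
    ring
  simp only [hT] at i1 i2 q1 q2
  have hf : (fun t : ℝ => ((kt 0 t : ℝ) : ℂ) * T (t : ℂ) * cexp (I * z * t)) =
      fun t : ℝ => P * (4 * (EE (9 / 4 + I * z / 2) ((2 * t + Real.log Real.pi : ℝ) : ℂ) * T t) -
        6 * (EE (5 / 4 + I * z / 2) ((2 * t + Real.log Real.pi : ℝ) : ℂ) * T t)) := by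
    funext t
    have := kt_EE z t
    rw [← hP] at this
    linear_combination T t * this
  have hI : Integrable (fun t : ℝ =>
      P * (4 * (EE (9 / 4 + I * z / 2) ((2 * t + Real.log Real.pi : ℝ) : ℂ) * T t) -
        6 * (EE (5 / 4 + I * z / 2) ((2 * t + Real.log Real.pi : ℝ) : ℂ) * T t))) :=
    ((i1.const_mul 4).sub (i2.const_mul 6)).const_mul P
  refine ⟨by rw [hf]; exact hI, ?_⟩
  unfold Jx
  rw [hf, integral_const_mul, integral_sub (i1.const_mul 4) (i2.const_mul 6), integral_const_mul,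
    integral_const_mul, q1, q2]
  ring

/-- the transform of `1` -/
theorem Jx_one (h1 : S_GA1) {z : ℂ} (hz : |z.im| ≤ 1) (hz0 : z.re ≠ 0) :
    Integrable (fun t : ℝ => ((kt 0 t : ℝ) : ℂ) * (1 : ℂ) * cexp (I * z * t)) ∧
    Jx (fun _ => 1) z = MM z := by
  have hz1 := abs_le.1 hz
  have r1 : (9 / 4 + I * z / 2).re = 9 / 4 - z.im / 2 := by
    simp
    norm_num
    ring
  have r2 : (5 / 4 + I * z / 2).re = 5 / 4 - z.im / 2 := by
    simp
    norm_num
    ring
  have r3 : (1 / 4 + I * z / 2).im = z.re / 2 := by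
    simp
  have p1 : 0 < (9 / 4 + I * z / 2).re := by rw [r1]; linarith
  have p2 : 0 < (5 / 4 + I * z / 2).re := by rw [r2]; linarith
  have j1 := (h1 (9 / 4 + I * z / 2) (fun _ => 1) 1 1 (1 / 5) p1 le_rfl (by norm_num) le_rfl
    (fun v _ => differentiableAt_const _)
    (fun v _ _ => by
      rw [norm_one, one_mul]
      exact Real.one_le_exp (by positivity))
    (fun v _ _ _ => by rw [norm_one])).1
  have j2 := (h1 (5 / 4 + I * z / 2) (fun _ => 1) 1 1 (1 / 5) p2 le_rfl (by norm_num) le_rfl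
    (fun v _ => differentiableAt_const _)
    (fun v _ _ => by
      rw [norm_one, one_mul]
      exact Real.one_le_exp (by positivity))
    (fun v _ _ _ => by rw [norm_one])).1
  obtain ⟨k1, k2⟩ := Jx_eq (fun _ => 1) z j1 j2
  refine ⟨k1, ?_⟩
  rw [k2]
  simp only [mul_one]
  rw [int_EE p1, int_EE p2]
  have hne : (1 / 4 + I * z / 2) ≠ 0 := by
    intro h
    have := congrArg Complex.im h
    rw [r3] at this
    simp at this
    exact hz0 this
  have hne2 : (5 / 4 + I * z / 2) ≠ 0 := by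
    intro h
    rw [h] at p2
    simp at p2
  have g1 : Gamma (9 / 4 + I * z / 2) = (5 / 4 + I * z / 2) * Gamma (5 / 4 + I * z / 2) := by
    rw [← Gamma_add_one _ hne2]
    congr 1
    ring
  have g2 : Gamma (5 / 4 + I * z / 2) = (1 / 4 + I * z / 2) * Gamma (1 / 4 + I * z / 2) := by
    rw [← Gamma_add_one _ hne]
    congr 1
    ring
  rw [g1, g2]
  unfold MM HH
  rw [Gammaℝ_def]
  have e1 : (Real.pi : ℂ) ^ (-(1 / 2 + I * z) / 2) = cexp (-(1 / 4 + I * z / 2) * Real.log Real.pi) := by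
    rw [Complex.cpow_def_of_ne_zero (Complex.ofReal_ne_zero.2 Real.pi_ne_zero),
      ← Complex.ofReal_log Real.pi_pos.le]
    congr 1
    ring
  have e2 : (1 / 2 + I * z) / 2 = 1 / 4 + I * z / 2 := by ring
  rw [e1, e2]
  ring

/-- the mean value inequality for `T` at the saddle point -/
theorem mv {T : ℂ → ℂ} {a b x : ℝ} (hx : 250 ≤ x) (ha : 0 ≤ a) (hb : 0 ≤ b)
    (hT : ∀ w : ℂ, |w.im| < Real.pi / 2 → DifferentiableAt ℂ T w)
    (hd : ∀ w : ℂ, |w.im - Real.pi / 4| ≤ x ^ (-(1 / 3) : ℝ) → ‖deriv T w‖ ≤ b *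
      Real.exp (a * (rp (w0 x).re w + rp (w0 x).re w ^ 2)))
    {v : ℂ} (hv : |v.im - Real.pi / 2| ≤ (x / 2) ^ (-(1 / 3) : ℝ)) :
    ‖T ((v - Real.log Real.pi) / 2) - T (w0 x)‖ ≤ b * ‖v - pt (x / 2) 0 (Real.pi / 2)‖ *
      Real.exp (a * (rp (Real.log (x / 2)) v + rp (Real.log (x / 2)) v ^ 2)) := by
  have hx0 : 0 < x := by linarith
  have hpi := Real.pi_pos
  have hpi3 := Real.pi_gt_three
  set w : ℂ := (v - Real.log Real.pi) / 2 with hw
  have hwre : w.re = (v.re - Real.log Real.pi) / 2 := by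
    rw [hw]
    simp
  have hwim : w.im = v.im / 2 := by
    rw [hw]
    simp
  have h0re : (w0 x).re = (Real.log (x / 2) - Real.log Real.pi) / 2 := by
    have : Real.log (x / (2 * Real.pi)) = Real.log (x / 2) - Real.log Real.pi := by
      rw [← Real.log_div (by positivity) hpi.ne', div_div]
    unfold w0
    simp [this]
  have h0im : (w0 x).im = Real.pi / 4 := by
    unfold w0
    simp
  have hdiff : w - w0 x = (v - pt (x / 2) 0 (Real.pi / 2)) / 2 := by
    apply Complex.ext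
    · simp [hwre, h0re, pt]
      ring
    · simp [hwim, h0im, pt]
      ring
  have hrp : rp (w0 x).re w = rp (Real.log (x / 2)) v / 2 := by
    unfold rp
    rw [hwre, h0re]
    have : (v.re - Real.log Real.pi) / 2 - (Real.log (x / 2) - Real.log Real.pi) / 2 =
      (v.re - Real.log (x / 2)) / 2 := by ring
    rw [this]
    rcases le_total (v.re - Real.log (x / 2)) 0 with h | h
    · rw [max_eq_right h, max_eq_right (by linarith), zero_div]
    · rw [max_eq_left h, max_eq_left (by linarith)]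
  have hsmall : x ^ (-(1 / 3) : ℝ) ≤ 1 / 5 := by
    have h1 : (125 : ℝ) ^ (-(1 / 3) : ℝ) = 1 / 5 := by
      have : (125 : ℝ) = (5 : ℝ) ^ (3 : ℝ) := by norm_num
      rw [this, ← Real.rpow_mul (by norm_num)]
      norm_num
    rw [← h1]
    exact Real.rpow_le_rpow_of_nonpos (by norm_num) (by linarith) (by norm_num)
  have hhalf : (x / 2) ^ (-(1 / 3) : ℝ) / 2 ≤ x ^ (-(1 / 3) : ℝ) := by
    have h1 : (x / 2) ^ (-(1 / 3) : ℝ) = x ^ (-(1 / 3) : ℝ) * 2 ^ (1 / 3 : ℝ) := by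
      rw [Real.div_rpow hx0.le (by norm_num), Real.rpow_neg (by norm_num : (0 : ℝ) ≤ 2), div_inv_eq_mul]
    have h2 : (2 : ℝ) ^ (1 / 3 : ℝ) ≤ 2 := by
      calc (2 : ℝ) ^ (1 / 3 : ℝ) ≤ (2 : ℝ) ^ (1 : ℝ) :=
            Real.rpow_le_rpow_of_exponent_le (by norm_num) (by norm_num)
        _ = 2 := Real.rpow_one 2
    rw [h1]
    have h3 : 0 ≤ x ^ (-(1 / 3) : ℝ) := by positivity
    nlinarith
  have hr0 : 0 ≤ rp (Real.log (x / 2)) v := le_max_right _ _
  have hseg : ∀ u ∈ segment ℝ (w0 x) w, |u.im - Real.pi / 4| ≤ x ^ (-(1 / 3) : ℝ) ∧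
      rp (w0 x).re u ≤ rp (w0 x).re w := by
    rintro u ⟨p, q, hp, hq, hpq, rfl⟩
    have hq1 : q ≤ 1 := by linarith
    have e1 : (p • w0 x + q • w).im - Real.pi / 4 = q * ((v.im - Real.pi / 2) / 2) := by
      simp only [add_im, Complex.real_smul, Complex.im_ofReal_mul, h0im, hwim]
      have : p = 1 - q := by linarith
      rw [this]
      ring
    have e2 : (p • w0 x + q • w).re - (w0 x).re = q * (w.re - (w0 x).re) := by
      simp only [add_re, Complex.real_smul, Complex.re_ofReal_mul]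
      have : p = 1 - q := by linarith
      rw [this]
      ring
    constructor
    · rw [e1, abs_mul, abs_of_nonneg hq, abs_div, abs_of_pos (by norm_num : (0 : ℝ) < 2)]
      calc q * (|v.im - Real.pi / 2| / 2) ≤ 1 * (|v.im - Real.pi / 2| / 2) :=
            mul_le_mul_of_nonneg_right hq1 (by positivity)
        _ ≤ (x / 2) ^ (-(1 / 3) : ℝ) / 2 := by linarith
        _ ≤ _ := hhalf
    · unfold rp
      rw [e2]
      apply max_le _ (le_max_right _ _)
      rcases le_total (w.re - (w0 x).re) 0 with h | h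
      · exact (mul_nonpos_of_nonneg_of_nonpos hq h).trans (le_max_right _ _)
      · exact (mul_le_of_le_one_left h hq1).trans (le_max_left _ _)
  have hmv := (convex_segment (𝕜 := ℝ) (w0 x) w).norm_image_sub_le_of_norm_deriv_le (𝕜 := ℂ) (f := T)
    (C := b * Real.exp (a * (rp (Real.log (x / 2)) v + rp (Real.log (x / 2)) v ^ 2)))
    (fun u hu => hT u (by
      have h1 := abs_le.1 ((hseg u hu).1.trans hsmall)
      rw [abs_lt]
      constructor <;> linarith [h1.1, h1.2]))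
    (fun u hu => (hd u (hseg u hu).1).trans (by
      apply mul_le_mul_of_nonneg_left _ hb
      apply Real.exp_le_exp.2
      apply mul_le_mul_of_nonneg_left _ ha
      have h1 := (hseg u hu).2
      rw [hrp] at h1
      have h2 : 0 ≤ rp (w0 x).re u := le_max_right _ _
      have h3 : rp (w0 x).re u ≤ rp (Real.log (x / 2)) v := by linarith
      exact add_le_add h3 (pow_le_pow_left₀ h2 h3 2)))
    (left_mem_segment ℝ (w0 x) w) (right_mem_segment ℝ (w0 x) w)
  refine hmv.trans ?_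
  rw [hdiff, norm_div]
  have h2 : ‖(2 : ℂ)‖ = 2 := by norm_num
  rw [h2]
  have h3 : 0 ≤ b * Real.exp (a * (rp (Real.log (x / 2)) v + rp (Real.log (x / 2)) v ^ 2)) := by
    positivity
  have h4 := norm_nonneg (v - pt (x / 2) 0 (Real.pi / 2))
  calc b * Real.exp (a * (rp (Real.log (x / 2)) v + rp (Real.log (x / 2)) v ^ 2)) *
        (‖v - pt (x / 2) 0 (Real.pi / 2)‖ / 2)
      ≤ b * Real.exp (a * (rp (Real.log (x / 2)) v + rp (Real.log (x / 2)) v ^ 2)) *
        ‖v - pt (x / 2) 0 (Real.pi / 2)‖ := mul_le_mul_of_nonneg_left (by linarith) h3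
    _ = _ := by ring

/-- the size of `(log x)^2` -/
theorem ev_log : ∃ x1 : ℝ, 1 ≤ x1 ∧ ∀ x : ℝ, x1 ≤ x → Real.log x ^ 2 ≤ (x / 2) ^ (1 / 4 : ℝ) := by
  have h := (isLittleO_log_rpow_rpow_atTop (s := 1 / 4) 2 (by norm_num)).bound
    (show (0 : ℝ) < 1 / 2 by norm_num)
  obtain ⟨x1, hx1⟩ := eventually_atTop.1 h
  refine ⟨max x1 1, le_max_right _ _, ?_⟩
  intro x hx
  have h1 := hx1 x ((le_max_left _ _).trans hx)
  have hx0 : 1 ≤ x := (le_max_right _ _).trans hx
  have hl : 0 ≤ Real.log x := Real.log_nonneg hx0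
  rw [Real.norm_eq_abs, Real.norm_eq_abs, abs_of_nonneg (by positivity), abs_of_nonneg (by positivity),
    Real.rpow_two] at h1
  refine h1.trans ?_
  rw [Real.div_rpow (by linarith) (by norm_num), div_eq_mul_inv, mul_comm]
  apply mul_le_mul_of_nonneg_left _ (by positivity)
  rw [one_mul]
  apply inv_anti₀ (by positivity)
  calc (2 : ℝ) ^ (1 / 4 : ℝ) ≤ (2 : ℝ) ^ (1 : ℝ) :=
        Real.rpow_le_rpow_of_exponent_le (by norm_num) (by norm_num)
    _ = 2 := Real.rpow_one 2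

end GA3

open GA3 in
theorem ga3 (h1 : S_GA1) (h2 : S_GA2) (h3 : S_STI) : S_GA := by
  obtain ⟨C, X0, hC, hX0, hG⟩ := h2 3
  obtain ⟨C', c, y0, hC', hc, hy0, hS⟩ := h3
  obtain ⟨x1, hx1, hlog⟩ := ev_log
  refine ⟨max 1 (20 * C / c), max (max (max x1 y0) (2 * X0)) 250, le_max_left _ _,
    le_trans (by norm_num) (le_max_right _ _), ?_⟩
  intro T M a b x hx ha0 ha hb hT hM hM0 hd z hz
  have hxa : x1 ≤ x := ((le_max_left _ _).trans ((le_max_left _ _).trans (le_max_left _ _))).trans hx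
  have hxb : y0 ≤ x := ((le_max_right _ _).trans ((le_max_left _ _).trans (le_max_left _ _))).trans hx
  have hxc : 2 * X0 ≤ x := ((le_max_right _ _).trans (le_max_left _ _)).trans hx
  have hxd : 250 ≤ x := (le_max_right _ _).trans hx
  have hx0 : 0 < x := by linarith
  have hpi := Real.pi_pos
  have hpi3 := Real.pi_gt_three
  have hlpi : 0 ≤ Real.log Real.pi := Real.log_nonneg (by linarith)
  have hzre : |z.re - x| ≤ 1 := by
    have := Complex.abs_re_le_norm (z - x)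
    simp only [sub_re, ofReal_re] at this
    linarith
  have hzim : |z.im| ≤ 1 := by
    have := Complex.abs_im_le_norm (z - x)
    simp only [sub_im, ofReal_im, sub_zero] at this
    linarith
  have hzre' := abs_le.1 hzre
  have hzim' := abs_le.1 hzim
  -- the function `R`
  set R : ℂ → ℂ := fun v => T ((v - Real.log Real.pi) / 2) - T (w0 x) with hR
  have hwre : ∀ v : ℂ, ((v - Real.log Real.pi) / 2).re = (v.re - Real.log Real.pi) / 2 := by
    intro v
    simp
  have hwim : ∀ v : ℂ, ((v - Real.log Real.pi) / 2).im = v.im / 2 := by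
    intro v
    simp
  have hRd : ∀ v : ℂ, |v.im| < Real.pi → DifferentiableAt ℂ R v := by
    intro v hv
    have hd1 : DifferentiableAt ℂ T ((v - Real.log Real.pi) / 2) := by
      apply hT
      rw [hwim, abs_div, abs_of_pos (by norm_num : (0 : ℝ) < 2)]
      linarith
    have hd2 : DifferentiableAt ℂ (fun v : ℂ => (v - Real.log Real.pi) / 2) v := by fun_prop
    exact (hd1.comp v hd2).sub_const _
  set M' : ℝ := (|M| + ‖T (w0 x)‖) * Real.exp (|M| * Real.log Real.pi ^ 2) + |M| with hM'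
  have hE1 : 1 ≤ Real.exp (|M| * Real.log Real.pi ^ 2) := Real.one_le_exp (by positivity)
  have hMM' : |M| ≤ M' := by
    have : 0 ≤ (|M| + ‖T (w0 x)‖) * Real.exp (|M| * Real.log Real.pi ^ 2) := by positivity
    linarith
  have hT0M : ‖T (w0 x)‖ ≤ M' - |M| := by
    have h4 : ‖T (w0 x)‖ * 1 ≤ (|M| + ‖T (w0 x)‖) * Real.exp (|M| * Real.log Real.pi ^ 2) :=
      mul_le_mul (by linarith [abs_nonneg M]) hE1 (by norm_num) (by positivity)
    linarith
  have hM'0 : 0 ≤ M' := (abs_nonneg M).trans hMM'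
  have hRM : ∀ v : ℂ, 0 ≤ v.im → v.im ≤ 2 → ‖R v‖ ≤ M' * Real.exp (M' * v.re ^ 2) := by
    intro v hv0 hv2
    have h4 := hM ((v - Real.log Real.pi) / 2) (by rw [hwim]; linarith) (by rw [hwim]; linarith)
    rw [hwre] at h4
    have h5 : M * Real.exp (M * ((v.re - Real.log Real.pi) / 2) ^ 2) ≤
        |M| * (Real.exp (|M| * Real.log Real.pi ^ 2) * Real.exp (M' * v.re ^ 2)) := by
      rw [← Real.exp_add]
      apply mul_le_mul (le_abs_self M) _ (Real.exp_pos _).le (abs_nonneg M)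
      apply Real.exp_le_exp.2
      have h6 : ((v.re - Real.log Real.pi) / 2) ^ 2 ≤ v.re ^ 2 + Real.log Real.pi ^ 2 := by
        nlinarith [sq_nonneg (v.re + Real.log Real.pi), sq_nonneg v.re, sq_nonneg (Real.log Real.pi)]
      calc M * ((v.re - Real.log Real.pi) / 2) ^ 2 ≤ |M| * ((v.re - Real.log Real.pi) / 2) ^ 2 :=
            mul_le_mul_of_nonneg_right (le_abs_self M) (sq_nonneg _)
        _ ≤ |M| * (v.re ^ 2 + Real.log Real.pi ^ 2) := mul_le_mul_of_nonneg_left h6 (abs_nonneg M)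
        _ = |M| * Real.log Real.pi ^ 2 + |M| * v.re ^ 2 := by ring
        _ ≤ _ := by
            have := mul_le_mul_of_nonneg_right hMM' (sq_nonneg v.re)
            linarith
    have h7 : 1 ≤ Real.exp (M' * v.re ^ 2) := Real.one_le_exp (by positivity)
    have h8 : ‖T (w0 x)‖ ≤ ‖T (w0 x)‖ *
        (Real.exp (|M| * Real.log Real.pi ^ 2) * Real.exp (M' * v.re ^ 2)) := by
      have : (1 : ℝ) * 1 ≤ Real.exp (|M| * Real.log Real.pi ^ 2) * Real.exp (M' * v.re ^ 2) :=
        mul_le_mul hE1 h7 (by norm_num) (Real.exp_pos _).le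
      calc ‖T (w0 x)‖ = ‖T (w0 x)‖ * (1 * 1) := by ring
        _ ≤ _ := mul_le_mul_of_nonneg_left this (norm_nonneg _)
    calc ‖R v‖ ≤ ‖T ((v - Real.log Real.pi) / 2)‖ + ‖T (w0 x)‖ := norm_sub_le _ _
      _ ≤ |M| * (Real.exp (|M| * Real.log Real.pi ^ 2) * Real.exp (M' * v.re ^ 2)) +
          ‖T (w0 x)‖ * (Real.exp (|M| * Real.log Real.pi ^ 2) * Real.exp (M' * v.re ^ 2)) :=
          add_le_add (h4.trans h5) h8
      _ = ((|M| + ‖T (w0 x)‖) * Real.exp (|M| * Real.log Real.pi ^ 2)) *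
            Real.exp (M' * v.re ^ 2) := by ring
      _ ≤ M' * Real.exp (M' * v.re ^ 2) := by
          apply mul_le_mul_of_nonneg_right _ (Real.exp_pos _).le
          linarith [abs_nonneg M]
  have hRM0 : ∀ v : ℂ, 0 ≤ v.im → v.im ≤ 2 → v.re ≤ 0 → ‖R v‖ ≤ M' := by
    intro v hv0 hv2 hvr
    have h4 := hM0 ((v - Real.log Real.pi) / 2) (by rw [hwim]; linarith) (by rw [hwim]; linarith)
      (by rw [hwre]; linarith)
    calc ‖R v‖ ≤ ‖T ((v - Real.log Real.pi) / 2)‖ + ‖T (w0 x)‖ := norm_sub_le _ _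
      _ ≤ |M| + (M' - |M|) := add_le_add (h4.trans (le_abs_self M)) hT0M
      _ = M' := by ring
  -- the parameters
  have hX1 : 1 ≤ x / 2 := by linarith
  have hXX : X0 ≤ x / 2 := by linarith
  set h : ℝ := (x / 2) ^ (-(1 / 3) : ℝ) with hh
  have hh0 : 0 < h := by positivity
  have hh5 : h ≤ 1 / 5 := by
    have h4 : (125 : ℝ) ^ (-(1 / 3) : ℝ) = 1 / 5 := by
      have : (125 : ℝ) = (5 : ℝ) ^ (3 : ℝ) := by norm_num
      rw [this, ← Real.rpow_mul (by norm_num)]
      norm_num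
    rw [← h4, hh]
    exact Real.rpow_le_rpow_of_nonpos (by norm_num) (by linarith) (by norm_num)
  have hmv : ∀ v : ℂ, |v.im - Real.pi / 2| ≤ (x / 2) ^ (-(1 / 3) : ℝ) →
      ‖R v‖ ≤ b * ‖v - pt (x / 2) 0 (Real.pi / 2)‖ *
        Real.exp (a * (rp (Real.log (x / 2)) v + rp (Real.log (x / 2)) v ^ 2)) :=
    fun v hv => mv hxd ha0 hb hT hd hv
  have ha' : a ≤ (x / 2) ^ (1 / 4 : ℝ) := ha.trans (hlog x hxa)
  -- one exponent
  have key : ∀ s0 : ℝ, 5 / 4 ≤ s0 → s0 ≤ 9 / 4 →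
      Integrable (fun v : ℝ => EE (s0 + I * z / 2) v * R v) ∧
      ‖∫ v : ℝ, EE (s0 + I * z / 2) v * R v‖ ≤
        C * (x / 2) ^ (s0 - z.im / 2 - 2 / 3) * Real.exp (-(Real.pi * (x / 2) / 2)) * b := by
    intro s0 hs0 hs1
    have r1 : ((s0 : ℂ) + I * z / 2).re = s0 - z.im / 2 := by
      simp
      ring
    have r2 : ((s0 : ℂ) + I * (z - x) / 2).re = s0 - z.im / 2 := by
      simp
      ring
    obtain ⟨j1, j2⟩ := h1 (s0 + I * z / 2) R M' (x / 2) h (by rw [r1]; linarith) hX1 hh0 hh5 hRd hRM hRM0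
    refine ⟨j1, ?_⟩
    have hs : (s0 : ℂ) + I * z / 2 = (s0 + I * (z - x) / 2) + I * ((x / 2 : ℝ) : ℂ) := by
      push_cast
      ring
    have hn : ‖(s0 : ℂ) + I * (z - x) / 2‖ ≤ 3 := by
      calc ‖(s0 : ℂ) + I * (z - x) / 2‖ ≤ ‖(s0 : ℂ)‖ + ‖I * (z - x) / 2‖ := norm_add_le _ _
        _ = |s0| + ‖z - x‖ / 2 := by
            rw [norm_div, norm_mul, norm_I, one_mul, Complex.norm_real, Real.norm_eq_abs]
            norm_num
        _ ≤ 3 := by
            rw [abs_of_nonneg (by linarith)]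
            linarith
    have j3 := hG (x / 2) (s0 + I * (z - x) / 2) hXX hn (by rw [r2]; linarith) a b R ha0 ha' hb hmv h hh
      (s0 + I * z / 2) hs
    rw [r2] at j3
    rw [j2]
    refine le_trans ?_ j3
    refine (norm_sub_le _ _).trans ?_
    rw [norm_mul, norm_I, one_mul]
    have := norm_add_le
      (∫ r in Set.Iic (0 : ℝ), EE (s0 + I * z / 2) (pt (x / 2) r (Real.pi / 2 + h)) *
        R (pt (x / 2) r (Real.pi / 2 + h)))
      (∫ r in Set.Ioi (0 : ℝ), EE (s0 + I * z / 2) (pt (x / 2) r (Real.pi / 2 - h)) *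
        R (pt (x / 2) r (Real.pi / 2 - h)))
    linarith
  obtain ⟨i1, b1⟩ := key (9 / 4) (by norm_num) le_rfl
  obtain ⟨i2, b2⟩ := key (5 / 4) le_rfl (by norm_num)
  push_cast at i1 b1 i2 b2
  obtain ⟨k1, k2⟩ := Jx_eq (fun w => T w - T (w0 x)) z i1 i2
  obtain ⟨l1, l2⟩ := Jx_one h1 hzim (by linarith [hzre'.1] : z.re ≠ 0)
  have hsplit : Jx T z - T (w0 x) * MM z = Jx (fun w => T w - T (w0 x)) z := by
    rw [← l2]
    unfold Jx
    rw [← integral_const_mul, sub_eq_iff_eq_add, ← integral_add k1 (l1.const_mul _)]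
    congr 1
    funext t
    ring
  rw [hsplit, k2]
  set I1 : ℂ := ∫ v : ℝ, EE (9 / 4 + I * z / 2) v * R v with hI1
  set I2 : ℂ := ∫ v : ℝ, EE (5 / 4 + I * z / 2) v * R v with hI2
  obtain ⟨β, -, hβ⟩ := hS x hxb
  have hMz := (hβ z hz).1
  set E : ℝ := Real.exp (-(Real.pi * x / 4)) with hE
  have eE : Real.exp (-(Real.pi * (x / 2) / 2)) = E := by
    rw [hE]
    congr 1
    ring
  rw [eE] at b1 b2
  have hE0 : 0 < E := Real.exp_pos _
  set Q : ℝ := (x / 2) ^ (9 / 4 - z.im / 2 - 2 / 3) with hQ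
  have hQ2 : (x / 2) ^ (5 / 4 - z.im / 2 - 2 / 3) ≤ Q :=
    Real.rpow_le_rpow_of_exponent_le hX1 (by linarith)
  have hQx : Q ≤ x ^ (7 / 4 - z.im / 2) * x ^ (-(1 / 6) : ℝ) := by
    rw [← Real.rpow_add hx0]
    have e : 7 / 4 - z.im / 2 + (-(1 / 6) : ℝ) = 9 / 4 - z.im / 2 - 2 / 3 := by ring
    rw [e, hQ]
    exact Real.rpow_le_rpow (by linarith) (by linarith) (by linarith)
  have hQ0 : 0 ≤ Q := by positivity
  have b2' : ‖I2‖ ≤ C * Q * E * b := by
    refine b2.trans ?_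
    gcongr
  have hP : ‖cexp (-(1 / 4 + I * z / 2) * Real.log Real.pi)‖ ≤ 4 := by
    rw [Complex.norm_exp]
    have e : (-(1 / 4 + I * z / 2) * (Real.log Real.pi : ℂ)).re = -(1 / 4 - z.im / 2) * Real.log Real.pi := by
      rw [Complex.re_mul_ofReal]
      congr 1
      simp
      ring
    rw [e]
    calc Real.exp (-(1 / 4 - z.im / 2) * Real.log Real.pi) ≤ Real.exp (Real.log Real.pi) :=
          Real.exp_le_exp.2 (by nlinarith)
      _ = Real.pi := Real.exp_log hpi
      _ ≤ 4 := Real.pi_le_four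
  have hJ : ‖cexp (-(1 / 4 + I * z / 2) * Real.log Real.pi) * (2 * I1 - 3 * I2)‖ ≤
      4 * (2 * (C * Q * E * b) + 3 * (C * Q * E * b)) := by
    rw [norm_mul]
    apply mul_le_mul hP _ (norm_nonneg _) (by norm_num)
    refine (norm_sub_le _ _).trans ?_
    rw [norm_mul, norm_mul]
    have n2 : ‖(2 : ℂ)‖ = 2 := by norm_num
    have n3 : ‖(3 : ℂ)‖ = 3 := by norm_num
    rw [n2, n3]
    linarith
  refine hJ.trans ?_
  have hx6 : 0 < x ^ (-(1 / 6) : ℝ) := by positivity
  calc 4 * (2 * (C * Q * E * b) + 3 * (C * Q * E * b)) = 20 * C * Q * E * b := by ring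
    _ ≤ 20 * C * (x ^ (7 / 4 - z.im / 2) * x ^ (-(1 / 6) : ℝ)) * E * b := by gcongr
    _ = 20 * C / c * x ^ (-(1 / 6) : ℝ) * (c * x ^ (7 / 4 - z.im / 2) * E) * b := by
        field_simp
    _ ≤ 20 * C / c * x ^ (-(1 / 6) : ℝ) * ‖MM z‖ * b := by gcongr
    _ ≤ max 1 (20 * C / c) * x ^ (-(1 / 6) : ℝ) * ‖MM z‖ * b := by
        gcongr
        exact le_max_right _ _

end Pool.Agent.N40.KL
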