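import Pool.Agent.N963.KL.Stm
import Pool.Agent.H24R2.JP.Stir
import Pool.Agent.H370R2.Digamma

set_option autoImplicit false

/-!
# Stirling for the factor of the Riemann Xi function (project KL, task STI, helper40)
-/

namespace Pool.Agent.N40.KL

open Complex Filter Topology MeasureTheory
open Pool.Agent.H24R2.JP (HH be Om SStir stir)
open Pool.Agent.N963.KL

namespace STI

/-- the size of the Gamma function on the line `1/2` -/
theorem gam_half {y : ℝ} (hy : 0 ≤ y) :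
    Real.exp (-(Real.pi * y / 2)) ≤ ‖Gamma (1 / 2 + y * I)‖ := by
  have hpi := Real.pi_pos
  have h := Complex.Gamma_mul_Gamma_one_sub (1 / 2 + y * I)
  have hc : (1 : ℂ) - (1 / 2 + y * I) = (starRingEnd ℂ) (1 / 2 + y * I) := by
    simp only [map_add, map_mul, conj_ofReal, conj_I, map_div₀, map_one, map_ofNat]
    ring
  rw [hc, Complex.Gamma_conj] at h
  have h1 := congrArg norm h
  rw [norm_mul, Complex.norm_conj, norm_div] at h1
  have hsin : ‖Complex.sin (Real.pi * (1 / 2 + y * I))‖ ≤ Real.exp (Real.pi * y) := by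
    have e1 : Complex.sin (Real.pi * (1 / 2 + y * I)) = Complex.cosh ((Real.pi * y : ℝ) : ℂ) := by
      have e2 : (Real.pi : ℂ) * (1 / 2 + y * I) = ((Real.pi * y : ℝ) : ℂ) * I + Real.pi / 2 := by
        push_cast
        ring
      rw [e2, Complex.sin_add_pi_div_two, Complex.cos_mul_I]
    rw [e1, ← Complex.ofReal_cosh, Complex.norm_real, Real.norm_eq_abs, abs_of_pos (Real.cosh_pos _),
      Real.cosh_eq]
    have h2 : Real.exp (-(Real.pi * y)) ≤ Real.exp (Real.pi * y) :=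
      Real.exp_le_exp.2 (by nlinarith [mul_nonneg hpi.le hy])
    linarith
  have hsin0 : Complex.sin (Real.pi * (1 / 2 + y * I)) ≠ 0 := by
    have e2 : (Real.pi : ℂ) * (1 / 2 + y * I) = ((Real.pi * y : ℝ) : ℂ) * I + Real.pi / 2 := by
      push_cast
      ring
    rw [e2, Complex.sin_add_pi_div_two, Complex.cos_mul_I, ← Complex.ofReal_cosh]
    exact Complex.ofReal_ne_zero.2 (Real.cosh_pos _).ne'
  have h2 : Real.pi / Real.exp (Real.pi * y) ≤
      ‖Gamma (1 / 2 + y * I)‖ * ‖Gamma (1 / 2 + y * I)‖ := by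
    rw [h1, Complex.norm_real, Real.norm_eq_abs, abs_of_pos hpi]
    exact div_le_div_of_nonneg_left hpi.le (norm_pos_iff.2 hsin0) hsin
  have h3 : Real.exp (-(Real.pi * y / 2)) ^ 2 ≤ ‖Gamma (1 / 2 + y * I)‖ ^ 2 := by
    rw [sq ‖Gamma (1 / 2 + y * I)‖]
    refine le_trans ?_ h2
    have e0 : Real.pi / Real.exp (Real.pi * y) = Real.pi * Real.exp (-(Real.pi * y)) := by
      rw [Real.exp_neg]
      rfl
    rw [← Real.exp_nat_mul, e0]
    have e : ((2 : ℕ) : ℝ) * -(Real.pi * y / 2) = -(Real.pi * y) := by push_cast; ring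
    rw [e]
    have h4 : (1 : ℝ) ≤ Real.pi := by linarith [Real.pi_gt_three]
    have h5 := Real.exp_pos (-(Real.pi * y))
    nlinarith
  exact (sq_le_sq₀ (Real.exp_pos _).le (norm_nonneg _)).1 h3

theorem ratio : ∃ C : ℝ, 0 ≤ C ∧ ∀ y : ℝ, 1 ≤ y →
    ‖Gamma (1 / 2 + y * I)‖ ≤ ‖Gamma (1 / 4 + y * I)‖ * Real.exp ((Real.log y + C) / 4) := by
  obtain ⟨C, hC⟩ := H370.digamma_bound
  refine ⟨|C|, abs_nonneg C, ?_⟩
  intro y hy
  have hlog : 0 ≤ Real.log y := Real.log_nonneg hy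
  have hre : ∀ u : ℝ, ((u : ℂ) + y * I).re = u := by intro u; simp
  have him : ∀ u : ℝ, ((u : ℂ) + y * I).im = y := by intro u; simp
  have hd : ∀ u : ℝ, HasDerivAt (fun u : ℝ => Gamma ((u : ℂ) + y * I))
      (deriv Gamma ((u : ℂ) + y * I)) u := by
    intro u
    have h1 : DifferentiableAt ℂ Gamma ((u : ℂ) + y * I) := by
      apply differentiableAt_Gamma
      intro m h
      have := congrArg Complex.im h
      rw [him] at this
      simp at this
      linarith
    have h2 : HasDerivAt (fun u : ℝ => (u : ℂ) + y * I) 1 u := by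
      have := (Complex.ofRealCLM.hasDerivAt (x := u)).add_const (y * I)
      simpa using this
    have h3 : HasDerivAt (fun u : ℝ => Gamma ((u : ℂ) + y * I))
        (deriv Gamma ((u : ℂ) + y * I) * 1) u := h1.hasDerivAt.comp u h2
    rwa [mul_one] at h3
  have hne : ∀ u : ℝ, Gamma ((u : ℂ) + y * I) ≠ 0 := by
    intro u
    apply Gamma_ne_zero
    intro m h
    have := congrArg Complex.im h
    rw [him] at this
    simp at this
    linarith
  have hb : ∀ u ∈ Set.Ico (1 / 4 : ℝ) (1 / 2), ‖deriv Gamma ((u : ℂ) + y * I)‖ ≤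
      (Real.log y + |C|) * ‖Gamma ((u : ℂ) + y * I)‖ + 0 := by
    intro u hu
    have h1 := hC ((u : ℂ) + y * I) (by rw [hre]; exact hu.1) (by rw [hre]; linarith [hu.2])
      (by rw [him, abs_of_pos (by linarith)]; linarith)
    rw [him, abs_of_pos (by linarith : 0 < y)] at h1
    have h2 : ‖logDeriv Gamma ((u : ℂ) + y * I)‖ ≤ Real.log y + |C| := by
      have h3 := norm_add_le (logDeriv Gamma ((u : ℂ) + y * I) - Real.log y) (Real.log y : ℂ)
      rw [sub_add_cancel, Complex.norm_real, Real.norm_eq_abs, abs_of_nonneg hlog] at h3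
      linarith [le_abs_self C]
    rw [add_zero]
    have h3 : deriv Gamma ((u : ℂ) + y * I) =
        logDeriv Gamma ((u : ℂ) + y * I) * Gamma ((u : ℂ) + y * I) := by
      rw [logDeriv_apply, div_mul_cancel₀ _ (hne u)]
    rw [h3, norm_mul]
    exact mul_le_mul_of_nonneg_right h2 (norm_nonneg _)
  have hg := norm_le_gronwallBound_of_norm_deriv_right_le
    (f := fun u : ℝ => Gamma ((u : ℂ) + y * I)) (f' := fun u : ℝ => deriv Gamma ((u : ℂ) + y * I))
    (δ := ‖Gamma (((1 / 4 : ℝ) : ℂ) + y * I)‖) (K := Real.log y + |C|) (ε := 0)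
    (a := 1 / 4) (b := 1 / 2)
    (fun u _ => (hd u).continuousAt.continuousWithinAt)
    (fun u _ => (hd u).hasDerivWithinAt) le_rfl hb (1 / 2) ⟨by norm_num, le_rfl⟩
  rw [gronwallBound_ε0] at hg
  have e1 : (((1 / 2 : ℝ) : ℂ)) = 1 / 2 := by push_cast; rfl
  have e2 : (((1 / 4 : ℝ) : ℂ)) = 1 / 4 := by push_cast; rfl
  rw [e1, e2] at hg
  refine hg.trans (le_of_eq ?_)
  congr 2
  ring

theorem low : ∃ c : ℝ, 0 < c ∧ ∀ x : ℝ, 2 ≤ x →
    c * x ^ (7 / 4 : ℝ) * Real.exp (-(Real.pi * x / 4)) ≤ ‖MM x‖ := by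
  obtain ⟨C, hC, h⟩ := ratio
  refine ⟨Real.pi ^ (-(1 / 4) : ℝ) * Real.exp (-(C / 4)) / 2, by positivity, ?_⟩
  intro x hx
  have hx0 : 0 < x := by linarith
  have hy : 1 ≤ x / 2 := by linarith
  have h1 := gam_half (y := x / 2) (by linarith)
  have h2 := h (x / 2) hy
  have h3 : Real.exp (-(Real.pi * x / 4)) * (x ^ (-(1 / 4) : ℝ) * Real.exp (-(C / 4))) ≤
      ‖Gamma (1 / 4 + ((x / 2 : ℝ) : ℂ) * I)‖ := by
    have h4 : Real.exp (-(Real.pi * (x / 2) / 2)) ≤
        ‖Gamma (1 / 4 + ((x / 2 : ℝ) : ℂ) * I)‖ * Real.exp ((Real.log (x / 2) + C) / 4) :=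
      h1.trans h2
    have h5 : x ^ (-(1 / 4) : ℝ) = Real.exp (-(Real.log x / 4)) := by
      rw [Real.rpow_def_of_pos hx0]
      congr 1
      ring
    have h6 : Real.log (x / 2) ≤ Real.log x := Real.log_le_log (by linarith) (by linarith)
    have h7 : Real.exp ((Real.log (x / 2) + C) / 4) ≤ Real.exp ((Real.log x + C) / 4) :=
      Real.exp_le_exp.2 (by linarith)
    have h8 : Real.exp (-(Real.pi * x / 4)) ≤
        ‖Gamma (1 / 4 + ((x / 2 : ℝ) : ℂ) * I)‖ * Real.exp ((Real.log x + C) / 4) := by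
      have e : -(Real.pi * (x / 2) / 2) = -(Real.pi * x / 4) := by ring
      rw [e] at h4
      exact h4.trans (mul_le_mul_of_nonneg_left h7 (norm_nonneg _))
    rw [h5, ← Real.exp_add]
    have h9 : Real.exp ((Real.log x + C) / 4) * Real.exp (-(Real.log x / 4) + -(C / 4)) = 1 := by
      rw [← Real.exp_add, Real.exp_eq_one_iff]
      ring
    calc Real.exp (-(Real.pi * x / 4)) * Real.exp (-(Real.log x / 4) + -(C / 4))
        ≤ ‖Gamma (1 / 4 + ((x / 2 : ℝ) : ℂ) * I)‖ * Real.exp ((Real.log x + C) / 4) *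
            Real.exp (-(Real.log x / 4) + -(C / 4)) :=
          mul_le_mul_of_nonneg_right h8 (Real.exp_pos _).le
      _ = _ := by rw [mul_assoc, h9, mul_one]
  have hMM : ‖MM x‖ = (4 * x ^ 2 + 1) * (Real.pi ^ (-(1 / 4) : ℝ) *
      ‖Gamma (1 / 4 + ((x / 2 : ℝ) : ℂ) * I)‖) / 8 := by
    unfold MM HH
    rw [norm_div, norm_mul, Gammaℝ_def, norm_mul]
    have e1 : ‖4 * (I * (x : ℂ)) ^ 2 - 1‖ = 4 * x ^ 2 + 1 := by
      have : 4 * (I * (x : ℂ)) ^ 2 - 1 = ((-(4 * x ^ 2 + 1) : ℝ) : ℂ) := by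
        push_cast
        rw [mul_pow, I_sq]
        ring
      rw [this, Complex.norm_real, Real.norm_eq_abs, abs_neg, abs_of_pos (by positivity)]
    have e2 : ‖(Real.pi : ℂ) ^ (-(1 / 2 + I * (x : ℂ)) / 2)‖ = Real.pi ^ (-(1 / 4) : ℝ) := by
      rw [Complex.norm_cpow_eq_rpow_re_of_pos Real.pi_pos]
      congr 1
      simp
      norm_num
    have e3 : (1 / 2 + I * (x : ℂ)) / 2 = 1 / 4 + ((x / 2 : ℝ) : ℂ) * I := by
      push_cast
      ring
    rw [e1, e2, e3]
    norm_num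
  rw [hMM]
  have e7 : x ^ (7 / 4 : ℝ) = x ^ 2 * x ^ (-(1 / 4) : ℝ) := by
    rw [← Real.rpow_natCast, ← Real.rpow_add hx0]
    norm_num
  rw [e7]
  have hp : 0 < Real.pi ^ (-(1 / 4) : ℝ) := by positivity
  calc Real.pi ^ (-(1 / 4) : ℝ) * Real.exp (-(C / 4)) / 2 * (x ^ 2 * x ^ (-(1 / 4) : ℝ)) *
        Real.exp (-(Real.pi * x / 4))
      = (4 * x ^ 2) * (Real.pi ^ (-(1 / 4) : ℝ) * (Real.exp (-(Real.pi * x / 4)) *
          (x ^ (-(1 / 4) : ℝ) * Real.exp (-(C / 4))))) / 8 := by ring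
    _ ≤ (4 * x ^ 2 + 1) * (Real.pi ^ (-(1 / 4) : ℝ) *
      ‖Gamma (1 / 4 + ((x / 2 : ℝ) : ℂ) * I)‖) / 8 := by gcongr; linarith

end STI

open STI in
theorem sti : S_STI := by
  obtain ⟨-, K, T0, hK, hT0, hst⟩ := stir
  obtain ⟨c, hc, hlow⟩ := low
  refine ⟨max K 2, min (1 / 2) (c * Real.exp (-K) / 2), max (max T0 2) (2 * K),
    hK.trans (le_max_left _ _), by positivity,
    (hT0.trans (le_max_left _ _)).trans (le_max_left _ _), ?_⟩
  intro x hx
  have hx1 : T0 ≤ x := ((le_max_left _ _).trans (le_max_left _ _)).trans hx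
  have hx2 : 2 ≤ x := ((le_max_right _ _).trans (le_max_left _ _)).trans hx
  have hx3 : 2 * K ≤ x := (le_max_right _ _).trans hx
  have hx0 : 0 < x := by linarith
  obtain ⟨hne, hbe, hu⟩ := hst x hx1
  have hbe' : ‖be x - (Real.log x / 2 : ℝ)‖ ≤ K := hbe
  refine ⟨be x, hbe'.trans (le_max_left _ _), ?_⟩
  intro z hz
  have hKx : K / x ≤ 1 / 2 := by
    rw [div_le_iff₀ hx0]
    linarith
  have hu1 := hu (I * (z - x)) (by rw [norm_mul, norm_I, one_mul]; linarith)
  have e1 : I * (x : ℂ) + I * (z - x) = I * z := by ring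
  rw [e1] at hu1
  have e2 : ‖cexp (be x * (I * (z - x)))‖ = Real.exp (-(be x * (z - x)).im) := by
    rw [Complex.norm_exp]
    congr 1
    have : be x * (I * (z - x)) = I * (be x * (z - x)) := by ring
    rw [this]
    simp
  set M := ‖HH (I * x) * cexp (be x * (I * (z - x)))‖ with hM
  have hMe : M = 8 * (‖MM x‖ * Real.exp (-(be x * (z - x)).im)) := by
    rw [hM, norm_mul, e2]
    unfold MM
    rw [norm_div]
    norm_num
    ring
  have hM0 : 0 ≤ M := norm_nonneg _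
  have hle : K / x * M ≤ 1 / 2 * M := mul_le_mul_of_nonneg_right hKx hM0
  have hup : ‖HH (I * z)‖ ≤ 3 / 2 * M := by
    have := norm_add_le (HH (I * z) - HH (I * x) * cexp (be x * (I * (z - x))))
      (HH (I * x) * cexp (be x * (I * (z - x))))
    rw [sub_add_cancel] at this
    linarith
  have hlo : 1 / 2 * M ≤ ‖HH (I * z)‖ := by
    have := norm_sub_norm_le (HH (I * x) * cexp (be x * (I * (z - x)))) (HH (I * z))
    rw [norm_sub_rev] at this
    linarith
  have hMMz : ‖MM z‖ = ‖HH (I * z)‖ / 8 := by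
    unfold MM
    rw [norm_div]
    norm_num
  have hX : 0 ≤ ‖MM x‖ * Real.exp (-(be x * (z - x)).im) := by positivity
  have h2 : 1 / 2 * (‖MM x‖ * Real.exp (-(be x * (z - x)).im)) ≤ ‖MM z‖ := by
    rw [hMMz]
    rw [hMe] at hlo
    linarith
  have h3 : ‖MM z‖ ≤ 3 / 2 * (‖MM x‖ * Real.exp (-(be x * (z - x)).im)) := by
    rw [hMMz]
    rw [hMe] at hup
    linarith
  refine ⟨?_, ?_, ?_⟩
  · -- the lower bound
    have h4 := hlow x hx2
    have h5 : (be x * (z - x)).im ≤ Real.log x / 2 * z.im + K := by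
      have e3 : be x * (z - x) = ((Real.log x / 2 : ℝ) : ℂ) * (z - x) +
          (be x - (Real.log x / 2 : ℝ)) * (z - x) := by ring
      have e4 : (((Real.log x / 2 : ℝ) : ℂ) * (z - x)).im = Real.log x / 2 * z.im := by
        rw [Complex.im_ofReal_mul]
        simp
      rw [e3, add_im, e4]
      have h6 : ((be x - (Real.log x / 2 : ℝ)) * (z - x)).im ≤ K := by
        refine (Complex.im_le_norm _).trans ?_
        rw [norm_mul]
        calc ‖be x - (Real.log x / 2 : ℝ)‖ * ‖z - x‖ ≤ K * 1 :=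
              mul_le_mul hbe' hz (norm_nonneg _) (by linarith)
          _ = K := mul_one K
      linarith
    have h7 : x ^ (-(z.im / 2)) * Real.exp (-K) ≤ Real.exp (-(be x * (z - x)).im) := by
      rw [Real.rpow_def_of_pos hx0, ← Real.exp_add]
      apply Real.exp_le_exp.2
      linarith
    have h8 : x ^ (7 / 4 - z.im / 2) = x ^ (7 / 4 : ℝ) * x ^ (-(z.im / 2)) := by
      rw [← Real.rpow_add hx0]
      congr 1
    calc min (1 / 2) (c * Real.exp (-K) / 2) * x ^ (7 / 4 - z.im / 2) *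
          Real.exp (-(Real.pi * x / 4))
        ≤ (c * Real.exp (-K) / 2) * x ^ (7 / 4 - z.im / 2) * Real.exp (-(Real.pi * x / 4)) := by
          gcongr
          exact min_le_right _ _
      _ = 1 / 2 * ((c * x ^ (7 / 4 : ℝ) * Real.exp (-(Real.pi * x / 4))) *
            (x ^ (-(z.im / 2)) * Real.exp (-K))) := by
          rw [h8]
          ring
      _ ≤ 1 / 2 * (‖MM x‖ * Real.exp (-(be x * (z - x)).im)) := by gcongr
      _ ≤ _ := h2
  · calc min (1 / 2) (c * Real.exp (-K) / 2) * ‖MM x‖ * Real.exp (-(be x * (z - x)).im)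
        ≤ 1 / 2 * ‖MM x‖ * Real.exp (-(be x * (z - x)).im) := by
          gcongr
          exact min_le_left _ _
      _ = 1 / 2 * (‖MM x‖ * Real.exp (-(be x * (z - x)).im)) := by ring
      _ ≤ _ := h2
  · calc ‖MM z‖ ≤ 3 / 2 * (‖MM x‖ * Real.exp (-(be x * (z - x)).im)) := h3
      _ ≤ max K 2 * (‖MM x‖ * Real.exp (-(be x * (z - x)).im)) := by
          apply mul_le_mul_of_nonneg_right _ hX
          exact le_trans (by norm_num) (le_max_right K 2)
      _ = _ := by ring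

end Pool.Agent.N40.KL
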